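import Pool.Agent.Q87.SF.Main
import Pool.Agent.Q87.SF.Per
import Pool.Agent.Q87.SF.Upx
import Pool.Agent.Q224.SF.W
import Pool.Agent.Q224.SF.Occ
import Pool.Agent.Q224.SF.Low

/-!
# Upper semi-Fredholm spectra of weighted composition operators on the disc algebra
-/

set_option autoImplicit false

namespace Pool.Agent.Results.MP_af3eb4_an.AccumulatingRadii

open Filter Topology Metric

/-- the closed unit disc -/
abbrev Disc : Type := closedBall (0 : ℂ) 1

/-- `f` belongs to the disc algebra: continuous on the closed disc and analytic in its interior -/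
def InDiscAlgebra (f : Disc → ℂ) : Prop :=
  Continuous f ∧ ∃ F : ℂ → ℂ, DifferentiableOn ℂ F (ball 0 1) ∧ ∀ z : Disc, f z = F z

/-- the supremum norm -/
noncomputable def supNorm (f : Disc → ℂ) : ℝ := ⨆ z, ‖f z‖

/-- the weighted composition operator `(T f)(z) = w(z) f(B(z))` -/
def wcomp (w : Disc → ℂ) (B : Disc → Disc) (f : Disc → ℂ) : Disc → ℂ := fun z => w z * f (B z)

/-- the upper semi-Fredholm spectrum of an operator on the disc algebra: there is a sequence of
unit vectors `x n` without norm-convergent subsequence such that `T (x n) - l (x n)` tends to 0 -/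
def usfSpectrum (T : (Disc → ℂ) → Disc → ℂ) : Set ℂ :=
  {l | ∃ x : ℕ → Disc → ℂ, (∀ n, InDiscAlgebra (x n) ∧ supNorm (x n) = 1) ∧
    (∀ φ : ℕ → ℕ, StrictMono φ → ∀ y, InDiscAlgebra y →
      ¬ Tendsto (fun n => supNorm (fun z => x (φ n) z - y z)) atTop (𝓝 0)) ∧
    Tendsto (fun n => supNorm (fun z => T (x n) z - l * x n z)) atTop (𝓝 0)}

/-- the radii of the circles in the upper semi-Fredholm spectrum -/
def radii (T : (Disc → ℂ) → Disc → ℂ) : Set ℝ :=
  {ρ | 0 ≤ ρ ∧ ∀ l : ℂ, ‖l‖ = ρ → l ∈ usfSpectrum T}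

/-- finite Blaschke products of degree `d` -/
def IsBlaschke (B : Disc → Disc) (d : ℕ) : Prop :=
  ∃ (θ : ℝ) (a : Fin d → ℂ), (∀ j, ‖a j‖ < 1) ∧ ∀ z : Disc,
    (B z : ℂ) = Complex.exp (θ * Complex.I) * ∏ j, ((z : ℂ) - a j) / (1 - starRingEnd ℂ (a j) * z)

/-- elliptic: the iterates converge locally uniformly in the open disc to a fixed point in the
open disc (the Denjoy-Wolff point) -/
def IsElliptic (B : Disc → Disc) : Prop :=
  ∃ z₀ : Disc, ‖(z₀ : ℂ)‖ < 1 ∧ B z₀ = z₀ ∧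
    ∀ r < 1, TendstoUniformlyOn (fun n => B^[n]) (fun _ => z₀) atTop {z | ‖(z : ℂ)‖ ≤ r}

open Pool.Agent.Q87.SF Pool.Agent.Q87.SFSpec

lemma elliptic4 : IsElliptic b := by
  have h0 : (0 : ℂ) ∈ closedBall (0 : ℂ) 1 := by simp
  refine ⟨⟨0, h0⟩, by simp, Subtype.ext (by simp [b]), ?_⟩
  intro r hr
  rw [Metric.tendstoUniformlyOn_iff]
  intro ε hε
  rcases lt_or_ge r 0 with hr0 | hr0
  · refine Eventually.of_forall fun n y hy => ?_
    have : ‖(y : ℂ)‖ ≤ r := hy
    linarith [norm_nonneg (y : ℂ)]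
  · have h1 : Tendsto (fun n : ℕ => r ^ n) atTop (𝓝 0) :=
      tendsto_pow_atTop_nhds_zero_of_lt_one hr0 hr
    filter_upwards [h1.eventually_lt_const hε] with n hn y hy
    have hy1 : ‖(y : ℂ)‖ ≤ r := hy
    rw [Subtype.dist_eq, b_iter, dist_zero_left, norm_pow]
    calc ‖(y : ℂ)‖ ^ (4 ^ n) ≤ r ^ (4 ^ n) := by gcongr
      _ ≤ r ^ n := pow_le_pow_of_le_one hr0 hr.le (Nat.lt_pow_self (by norm_num)).le
      _ < ε := hn

lemma blaschke4 : IsBlaschke b 4 := by
  refine ⟨0, fun _ => 0, fun _ => by simp, fun z => ?_⟩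
  simp [b_val]

lemma inA (f : DA) : InDiscAlgebra (fun z => f.1 z) := ⟨f.1.continuous, f.2⟩

/-- an element of the disc algebra as an element of the Banach space -/
def mk (f : Disc → ℂ) (h : InDiscAlgebra f) : DA := ⟨⟨f, h.1⟩, h.2⟩

lemma supNorm_eq (f : DA) : supNorm (fun z => f.1 z) = ‖f‖ :=
  (ContinuousMap.norm_eq_iSup_norm f.1).symm

lemma usf_sub {w : DA} {T : DA →L[ℂ] DA} (hT : IsWC (fun z => z ^ 4) w T) :
    usf T ⊆ usfSpectrum (wcomp (fun z => w.1 z) b) := by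
  rintro l ⟨x, hx1, hx2, hx3⟩
  refine ⟨fun n z => (x n).1 z, fun n => ⟨inA _, by rw [supNorm_eq, hx1]⟩, ?_, ?_⟩
  · intro φ hφ y hy h
    apply hx2 φ hφ (mk y hy)
    rw [tendsto_iff_norm_sub_tendsto_zero]
    have h1 : ∀ n, ‖x (φ n) - mk y hy‖ = supNorm (fun z => (x (φ n)).1 z - y z) := by
      intro n
      rw [← supNorm_eq]
      rfl
    simp only [h1]
    exact h
  · have h1 : ∀ n, supNorm (fun z => wcomp (fun z => w.1 z) b (fun z => (x n).1 z) z -
        l * (x n).1 z) = ‖T (x n) - l • x n‖ := by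
      intro n
      rw [← supNorm_eq]
      congr 1
      funext z
      have h2 : (T (x n) - l • x n).1 z = (T (x n)).1 z - l * (x n).1 z := rfl
      rw [h2, hT (x n) z (b z) rfl]
      rfl
    simp only [h1]
    have h2 := hx3.norm
    rwa [norm_zero] at h2

/-- **The answer is no.**  For the elliptic finite Blaschke product `B(z) = z^4` there is `w` in the
disc algebra such that for `T f = w (f ∘ B)` the set of the radii of the circles in the upper
semi-Fredholm spectrum has an accumulation point `r > 0`. -/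
theorem result : ∃ (B : Disc → Disc) (w : Disc → ℂ), (∀ z : Disc, (B z : ℂ) = (z : ℂ) ^ 4) ∧
    IsBlaschke B 4 ∧ IsElliptic B ∧ InDiscAlgebra w ∧
      ∃ r : ℝ, 0 < r ∧ AccPt r (𝓟 (radii (wcomp w B))) := by
  obtain ⟨w, T, hT, r, hr, hacc⟩ := Pool.Agent.Q87.SFMain.main Pool.Agent.Q224.SF.w_fn
    Pool.Agent.Q87.SFPer.per
    (Pool.Agent.Q224.SF.low Pool.Agent.Q87.SFPer.per Pool.Agent.Q87.SFPer.close_pts
      Pool.Agent.Q224.SF.occ) Pool.Agent.Q87.SFUpx.upx
  refine ⟨b, fun z => w.1 z, fun z => rfl, blaschke4, elliptic4, inA w, r, hr, ?_⟩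
  apply hacc.mono
  apply Filter.principal_mono.mpr
  intro ρ hρ
  exact ⟨hρ.1, fun l hl => usf_sub hT (hρ.2 l hl)⟩

end Pool.Agent.Results.MP_af3eb4_an.AccumulatingRadii
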